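import Mathlib

/-!
# The least dimension of a monostatic uniform simplex is 10

Main idea for the lower bound. For an `n`-simplex let `w i` be the gradient of the `i`-th
barycentric coordinate; then `∑ w i = 0` and facet `i` is stable iff `⟪w i, w j⟫ < ⟪w i, w i⟫`
for all `j ≠ i`. In a monostatic simplex every index except one therefore has a strictly longer
`parent`, which gives a rooted tree. The bound `Bd` estimates the sum of the vectors in a forest
hanging below `p`; a short table of numbers then shows that with at most nine non-root nodes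
the total sum cannot vanish. An explicit integral example settles dimension 10.
-/

namespace Pool.Agent.Results.MP_93bd63_co.LeastDimension

open Finset

/-- Facet `i` of the uniform `n`-simplex `S` (the convex hull of all vertices except the `i`-th)
is stable: the orthogonal projection `p` of the centroid (the average of the vertices) onto the
hyperplane spanned by the facet lies in the relative interior of the facet. -/
def StableFacet {n : ℕ} (S : Affine.Simplex ℝ (EuclideanSpace ℝ (Fin n)) n) (i : Fin (n + 1)) :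
    Prop :=
  ∃ p ∈ intrinsicInterior ℝ (convexHull ℝ (S.points '' {i}ᶜ)),
    ∀ x ∈ affineSpan ℝ (S.points '' {i}ᶜ),
      inner ℝ ((((n : ℝ) + 1)⁻¹ • ∑ k, S.points k) - p) (x - p) = 0

/-- A simplex is monostatic if exactly one of its `n + 1` facets is stable. -/
def Monostatic {n : ℕ} (S : Affine.Simplex ℝ (EuclideanSpace ℝ (Fin n)) n) : Prop :=
  ∃! i, StableFacet S i

section Conf
variable {V : Type*} [NormedAddCommGroup V] [InnerProductSpace ℝ V]

/-- `Conf m p τ`: there is a rooted forest with `m` nodes hanging below `p`, each node `w` with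
parent `q` satisfying `⟪w, w⟫ ≤ ⟪w, q⟫`, and `τ` is the sum of all `m` node vectors. -/
inductive Conf : ℕ → V → V → Prop
  | nil (p : V) : Conf 0 p 0
  | cons {m k : ℕ} {p w σ τ : V} (h : inner ℝ w w ≤ inner ℝ w p) (h1 : Conf m w σ)
      (h2 : Conf k p τ) : Conf (m + k + 1) p (w + σ + τ)

/-- The basic quadratic bound. -/
def Bd (K b : ℝ) (p τ : V) : Prop :=
  ∀ (s : V) (t : ℝ), 0 < t →
    -2 * inner ℝ s τ ≤ K * (t * inner ℝ p p + inner ℝ s s / t) - 2 * b * inner ℝ p s

theorem bd_zero (p : V) : Bd 0 0 p 0 := by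
  intro s t ht
  simp

theorem bd_add {K₁ b₁ K₂ b₂ : ℝ} {p τ₁ τ₂ : V} (h₁ : Bd K₁ b₁ p τ₁) (h₂ : Bd K₂ b₂ p τ₂) :
    Bd (K₁ + K₂) (b₁ + b₂) p (τ₁ + τ₂) := by
  intro s t ht
  have e1 := h₁ s t ht
  have e2 := h₂ s t ht
  rw [inner_add_right]
  nlinarith

theorem amgm (p s : V) {t : ℝ} (ht : 0 < t) :
    2 * |inner ℝ p s| ≤ t * inner ℝ p p + inner ℝ s s / t := by
  have h1 : 0 ≤ inner ℝ (t • p - s) (t • p - s) := real_inner_self_nonneg
  have h2 : 0 ≤ inner ℝ (t • p + s) (t • p + s) := real_inner_self_nonneg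
  have hc : inner ℝ s p = inner ℝ p s := real_inner_comm p s
  simp only [inner_sub_left, inner_sub_right, inner_add_left, inner_add_right,
    real_inner_smul_left, real_inner_smul_right, hc] at h1 h2
  have h3 : t * (2 * |inner ℝ p s|) ≤ t * (t * inner ℝ p p + inner ℝ s s / t) := by
    have e : t * (t * inner ℝ p p + inner ℝ s s / t) = t * (t * inner ℝ p p) + inner ℝ s s := by
      field_simp
    rw [e]
    rcases abs_cases (inner ℝ p s) with ⟨ha, _⟩ | ⟨ha, _⟩ <;> rw [ha] <;> nlinarith
  exact le_of_mul_le_mul_left h3 ht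

theorem bd_mono {K b K' b' : ℝ} {p τ : V} (h : Bd K b p τ) (hK : |b' - b| ≤ K' - K) :
    Bd K' b' p τ := by
  intro s t ht
  have e1 := h s t ht
  have e2 := amgm p s ht
  have e3 : 0 ≤ |inner ℝ p s| := abs_nonneg _
  have e4 : (b' - b) * inner ℝ p s ≤ |b' - b| * |inner ℝ p s| := by
    rw [← abs_mul]; exact le_abs_self _
  have e5 : |b' - b| * |inner ℝ p s| ≤ (K' - K) * |inner ℝ p s| :=
    mul_le_mul_of_nonneg_right hK e3
  have e6 : 0 ≤ K' - K := le_trans (abs_nonneg _) hK
  have e7 : (K' - K) * (2 * |inner ℝ p s|) ≤ (K' - K) * (t * inner ℝ p p + inner ℝ s s / t) :=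
    mul_le_mul_of_nonneg_left e2 e6
  nlinarith

theorem bd_base {p w : V} (hw : inner ℝ w w ≤ inner ℝ w p) : Bd (1 / 2) (1 / 2) p w := by
  intro s t ht
  have h1 : 0 ≤ inner ℝ ((2 * t) • w - t • p + s) ((2 * t) • w - t • p + s) :=
    real_inner_self_nonneg
  have hc1 : inner ℝ s p = inner ℝ p s := real_inner_comm p s
  have hc2 : inner ℝ s w = inner ℝ w s := real_inner_comm w s
  have hc3 : inner ℝ p w = inner ℝ w p := real_inner_comm w p
  simp only [inner_sub_left, inner_sub_right, inner_add_left, inner_add_right,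
    real_inner_smul_left, real_inner_smul_right, hc1, hc2, hc3] at h1 ⊢
  have h3 : t * (-2 * inner ℝ w s) ≤
      t * (1 / 2 * (t * inner ℝ p p + inner ℝ s s / t) - 2 * (1 / 2) * inner ℝ p s) := by
    have e : t * (1 / 2 * (t * inner ℝ p p + inner ℝ s s / t) - 2 * (1 / 2) * inner ℝ p s) =
      1 / 2 * (t * (t * inner ℝ p p)) + 1 / 2 * inner ℝ s s - t * inner ℝ p s := by
      field_simp
    rw [e]
    nlinarith [mul_pos ht ht]
  exact le_of_mul_le_mul_left h3 ht

theorem bd_step {K b K' b' : ℝ} (hK : 0 < K) (hK' : 0 < K') (hb : 0 ≤ b)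
    (hd : 0 < 2 * b' - (1 + b))
    (h : b' ^ 2 * ((1 + b) * (2 * b' - (1 + b)) + K ^ 2) ≤
      K' ^ 2 * ((1 + b) * (2 * b' - (1 + b))))
    {p w σ : V} (hw : inner ℝ w w ≤ inner ℝ w p) (hs : Bd K b w σ) : Bd K' b' p (w + σ) := by
  intro s t ht
  set c : ℝ := 1 + b with hc
  set d : ℝ := 2 * b' - c with hdd
  have hc0 : 0 < c := by positivity
  have hb' : 0 < b' := by nlinarith
  -- parameters
  set lam : ℝ := 2 * c * K' * t / b' with hlam
  have hlam0 : 0 < lam := by positivity
  set t1 : ℝ := (d / (2 * b')) * lam / K with ht1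
  have ht10 : 0 < t1 := by positivity
  have e1 := hs s t1 ht10
  -- square
  have h1 : 0 ≤ inner ℝ ((c * lam / b') • w - lam • p + (2 * c) • s)
      ((c * lam / b') • w - lam • p + (2 * c) • s) := real_inner_self_nonneg
  have hc1 : inner ℝ s p = inner ℝ p s := real_inner_comm p s
  have hc2 : inner ℝ s w = inner ℝ w s := real_inner_comm w s
  have hc3 : inner ℝ p w = inner ℝ w p := real_inner_comm w p
  simp only [inner_sub_left, inner_sub_right, inner_add_left, inner_add_right,
    real_inner_smul_left, real_inner_smul_right, hc1, hc2, hc3] at h1 e1 ⊢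
  set X := inner ℝ p p with hX
  set Y := inner ℝ w w with hY
  set Z := inner ℝ s s with hZ
  set a := inner ℝ w p with ha
  set q := inner ℝ p s with hq
  set r := inner ℝ w s with hr
  have hZ0 : 0 ≤ Z := real_inner_self_nonneg
  -- e1 : -2 * inner s σ ≤ K * (t1 * Y + Z / t1) - 2 * b * r
  have hKt1 : K * t1 = d / (2 * b') * lam := by rw [ht1]; field_simp
  have hKZ : K * (Z / t1) = K ^ 2 * (2 * b') / (d * lam) * Z := by
    rw [ht1]; field_simp
  have hlam2 : lam * b' = 2 * c * K' * t := by rw [hlam]; field_simp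
  have h2 : 0 ≤ b' / (2 * c * lam) * ((c * lam / b') * (c * lam / b') * Y + lam * lam * X + 4 * c * c * Z
      - 2 * (c * lam / b') * lam * a + 2 * (c * lam / b') * (2 * c) * r - 2 * lam * (2 * c) * q) := by
    apply mul_nonneg (by positivity)
    exact h1.trans_eq (by ring)
  have h3 : b' / (2 * c * lam) * ((c * lam / b') * (c * lam / b') * Y + lam * lam * X + 4 * c * c * Z
      - 2 * (c * lam / b') * lam * a + 2 * (c * lam / b') * (2 * c) * r - 2 * lam * (2 * c) * q)
      = c * lam / (2 * b') * Y + b' * lam / (2 * c) * X + 2 * c * b' / lam * Z - lam * a + 2 * c * r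
        - 2 * b' * q := by
    field_simp
    ring
  rw [h3] at h2
  have h4 : b' * lam / (2 * c) = K' * t := by
    have : b' * lam = 2 * c * K' * t := by linarith
    rw [this]; field_simp
  have h5 : (K ^ 2 * (2 * b') / (d * lam) + 2 * c * b' / lam) * Z ≤ K' / t * Z := by
    apply mul_le_mul_of_nonneg_right _ hZ0
    have e : K ^ 2 * (2 * b') / (d * lam) + 2 * c * b' / lam = b' ^ 2 * (c * d + K ^ 2) / (c * d * K' * t) := by
      rw [hlam]; field_simp
      ring
    rw [e, div_le_div_iff₀ (by positivity) ht]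
    calc b' ^ 2 * (c * d + K ^ 2) * t ≤ K' ^ 2 * (c * d) * t :=
          mul_le_mul_of_nonneg_right h ht.le
      _ = K' * (c * d * K' * t) := by ring
  have h6 : lam * Y ≤ lam * a := mul_le_mul_of_nonneg_left hw hlam0.le
  have h7 : d / (2 * b') * lam * Y + c * lam / (2 * b') * Y = lam * Y := by
    have : d + c = 2 * b' := by rw [hdd]; ring
    have e : d / (2 * b') * lam * Y + c * lam / (2 * b') * Y = (d + c) / (2 * b') * lam * Y := by ring
    rw [e, this, div_self (by positivity), one_mul]
  have h8 : K * (t1 * Y + Z / t1) = d / (2 * b') * lam * Y + K ^ 2 * (2 * b') / (d * lam) * Z := by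
    rw [mul_add, ← mul_assoc, hKt1, hKZ]
  rw [h8] at e1
  have h9 : K' * (t * X + Z / t) = K' * t * X + K' / t * Z := by field_simp
  rw [h9]
  rw [h4] at h2
  have hcb : c = 1 + b := rfl
  have h5' : K ^ 2 * (2 * b') / (d * lam) * Z + 2 * c * b' / lam * Z ≤ K' / t * Z := by
    rw [← add_mul]; exact h5
  have h10 : -2 * (inner ℝ w s + inner ℝ s σ) = -2 * r + -2 * inner ℝ s σ := by rw [hr]; ring
  rw [h10]
  have h11 : 2 * b * r = 2 * c * r - 2 * r := by rw [hc]; ring
  linarith

/-- Arithmetic condition allowing one step of the recursion. -/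
def StepOK (K b K' b' : ℝ) : Prop :=
  0 < K ∧ 0 < K' ∧ 0 ≤ b ∧ 0 < 2 * b' - (1 + b) ∧
    b' ^ 2 * ((1 + b) * (2 * b' - (1 + b)) + K ^ 2) ≤ K' ^ 2 * ((1 + b) * (2 * b' - (1 + b)))

theorem conf_zero {p τ : V} (h : Conf 0 p τ) : τ = 0 := by
  cases h
  rfl

theorem chain (M : ℕ) (K b : ℕ → ℝ) (hK0 : K 0 = 0) (hb0 : b 0 = 0)
    (hK1 : K 1 = 1 / 2) (hb1 : b 1 = 1 / 2)
    (hstep : ∀ i, 1 ≤ i → i < M → StepOK (K i) (b i) (K (i + 1)) (b (i + 1)))
    (hsup : ∀ j k, 1 ≤ j → 1 ≤ k → j + k ≤ M →
      |b (j + k) - (b j + b k)| ≤ K (j + k) - (K j + K k)) :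
    ∀ m ≤ M, ∀ p τ : V, Conf m p τ → Bd (K m) (b m) p τ := by
  intro m
  induction m using Nat.strong_induction_on with
  | _ m ih =>
    intro hm p τ h
    cases h with
    | nil => rw [hK0, hb0]; exact bd_zero p
    | @cons m' k _ w σ τ' hw h1 h2 =>
      have hbr : Bd (K (m' + 1)) (b (m' + 1)) p (w + σ) := by
        rcases Nat.eq_zero_or_pos m' with h0 | h0
        · subst h0
          have := conf_zero h1
          subst this
          rw [zero_add, hK1, hb1, add_zero]
          exact bd_base hw
        · obtain ⟨a1, a2, a3, a4, a5⟩ := hstep m' h0 (by omega)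
          exact bd_step a1 a2 a3 a4 a5 hw (ih m' (by omega) (by omega) w σ h1)
      have hrest : Bd (K k) (b k) p τ' := ih k (by omega) (by omega) p τ' h2
      rcases Nat.eq_zero_or_pos k with h0 | h0
      · subst h0
        have := conf_zero h2
        subst this
        simpa using hbr
      · have e := hsup (m' + 1) k (by omega) h0 (by omega)
        have e2 : m' + k + 1 = m' + 1 + k := by omega
        rw [e2]
        exact bd_mono (bd_add hbr hrest) e

/-- Adding a zero vector as an extra node. -/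
theorem conf_succ {n : ℕ} {p τ : V} (h : Conf n p τ) : Conf (n + 1) p τ := by
  have := Conf.cons (m := 0) (k := n) (p := p) (w := (0 : V)) (σ := 0) (τ := τ) (by simp)
    (Conf.nil 0) h
  simpa using this

theorem conf_mono {n m : ℕ} (hnm : n ≤ m) {p τ : V} (h : Conf n p τ) : Conf m p τ := by
  induction hnm with
  | refl => exact h
  | step _ ih => exact conf_succ ih

/-- The bound for a single branch in the direction of `p`. -/
theorem branch_bound {K b : ℝ} (hK : 0 < K) (hb : 0 ≤ b) {p w σ : V}
    (hw : inner ℝ w w ≤ inner ℝ w p) (hs : Bd K b w σ) :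
    -(K ^ 2 / (4 * (1 + b))) * inner ℝ p p ≤ inner ℝ p (w + σ) := by
  have ht : 0 < 2 * (1 + b) / K := by positivity
  have e := hs p _ ht
  have hc3 : inner ℝ p w = inner ℝ w p := real_inner_comm w p
  rw [inner_add_right, hc3]
  have e1 : K * (2 * (1 + b) / K * inner ℝ w w + inner ℝ p p / (2 * (1 + b) / K)) =
      2 * (1 + b) * inner ℝ w w + 2 * (K ^ 2 / (4 * (1 + b))) * inner ℝ p p := by
    field_simp
    ring
  rw [e1] at e
  have e2 : (1 + b) * inner ℝ w w ≤ (1 + b) * inner ℝ w p :=
    mul_le_mul_of_nonneg_left hw (by positivity)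
  nlinarith

theorem top8 : ∀ p τ : V, Conf 8 p τ → Bd (12.18) (10.2) p τ := by
  have h := chain (V := V) 8
    (fun i => if i = 0 then 0 else if i = 1 then 1 / 2 else if i = 2 then 1.13 else if i = 3 then 1.84 else if i = 4 then 2.55 else if i = 5 then 3.34 else if i = 6 then 4.23 else if i = 7 then 5.56 else 12.18)
    (fun i => if i = 0 then 0 else if i = 1 then 1 / 2 else if i = 2 then 0.9 else if i = 3 then 1.2 else if i = 4 then 1.6 else if i = 5 then 2.0 else if i = 6 then 2.5 else if i = 7 then 3.6 else 10.2)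
    (by simp) (by simp) (by simp) (by simp)
    (by
      intro i h1 h2
      interval_cases i <;> norm_num [StepOK])
    (by
      intro j k h1 h2 h3
      have hj : j ≤ 7 := by omega
      have hk : k ≤ 7 := by omega
      interval_cases j <;> interval_cases k <;> first | (exfalso; omega) | norm_num [abs_le])
      8 le_rfl
  simpa using h

theorem top7 : ∀ p τ : V, Conf 7 p τ → Bd (6.87) (5.2) p τ := by
  have h := chain (V := V) 7
    (fun i => if i = 0 then 0 else if i = 1 then 1 / 2 else if i = 2 then 1.13 else if i = 3 then 1.84 else if i = 4 then 2.55 else if i = 5 then 3.34 else if i = 6 then 4.26 else 6.87)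
    (fun i => if i = 0 then 0 else if i = 1 then 1 / 2 else if i = 2 then 0.9 else if i = 3 then 1.2 else if i = 4 then 1.6 else if i = 5 then 1.9 else if i = 6 then 2.6 else 5.2)
    (by simp) (by simp) (by simp) (by simp)
    (by
      intro i h1 h2
      interval_cases i <;> norm_num [StepOK])
    (by
      intro j k h1 h2 h3
      have hj : j ≤ 6 := by omega
      have hk : k ≤ 6 := by omega
      interval_cases j <;> interval_cases k <;> first | (exfalso; omega) | norm_num [abs_le])
      7 le_rfl
  simpa using h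

theorem top6 : ∀ p τ : V, Conf 6 p τ → Bd (4.94) (3.6) p τ := by
  have h := chain (V := V) 6
    (fun i => if i = 0 then 0 else if i = 1 then 1 / 2 else if i = 2 then 1.13 else if i = 3 then 1.84 else if i = 4 then 2.57 else if i = 5 then 3.33 else 4.94)
    (fun i => if i = 0 then 0 else if i = 1 then 1 / 2 else if i = 2 then 0.9 else if i = 3 then 1.2 else if i = 4 then 1.5 else if i = 5 then 2.0 else 3.6)
    (by simp) (by simp) (by simp) (by simp)
    (by
      intro i h1 h2
      interval_cases i <;> norm_num [StepOK])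
    (by
      intro j k h1 h2 h3
      have hj : j ≤ 5 := by omega
      have hk : k ≤ 5 := by omega
      interval_cases j <;> interval_cases k <;> first | (exfalso; omega) | norm_num [abs_le])
      6 le_rfl
  simpa using h

theorem top5 : ∀ p τ : V, Conf 5 p τ → Bd (3.51) (2.4) p τ := by
  have h := chain (V := V) 5
    (fun i => if i = 0 then 0 else if i = 1 then 1 / 2 else if i = 2 then 1.13 else if i = 3 then 1.84 else if i = 4 then 2.55 else 3.51)
    (fun i => if i = 0 then 0 else if i = 1 then 1 / 2 else if i = 2 then 0.9 else if i = 3 then 1.2 else if i = 4 then 1.6 else 2.4)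
    (by simp) (by simp) (by simp) (by simp)
    (by
      intro i h1 h2
      interval_cases i <;> norm_num [StepOK])
    (by
      intro j k h1 h2 h3
      have hj : j ≤ 4 := by omega
      have hk : k ≤ 4 := by omega
      interval_cases j <;> interval_cases k <;> first | (exfalso; omega) | norm_num [abs_le])
      5 le_rfl
  simpa using h

theorem top4 : ∀ p τ : V, Conf 4 p τ → Bd (2.61) (1.8) p τ := by
  have h := chain (V := V) 4
    (fun i => if i = 0 then 0 else if i = 1 then 1 / 2 else if i = 2 then 1.13 else if i = 3 then 1.84 else 2.61)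
    (fun i => if i = 0 then 0 else if i = 1 then 1 / 2 else if i = 2 then 0.9 else if i = 3 then 1.2 else 1.8)
    (by simp) (by simp) (by simp) (by simp)
    (by
      intro i h1 h2
      interval_cases i <;> norm_num [StepOK])
    (by
      intro j k h1 h2 h3
      have hj : j ≤ 3 := by omega
      have hk : k ≤ 3 := by omega
      interval_cases j <;> interval_cases k <;> first | (exfalso; omega) | norm_num [abs_le])
      4 le_rfl
  simpa using h

theorem rest4 : ∀ p τ : V, Conf 4 p τ → Bd (5.26) (4.8) p τ := by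
  have h := chain (V := V) 4
    (fun i => if i = 0 then 0 else if i = 1 then 1 / 2 else if i = 2 then 1.13 else if i = 3 then 1.86 else 5.26)
    (fun i => if i = 0 then 0 else if i = 1 then 1 / 2 else if i = 2 then 0.9 else if i = 3 then 1.4 else 4.8)
    (by simp) (by simp) (by simp) (by simp)
    (by
      intro i h1 h2
      interval_cases i <;> norm_num [StepOK])
    (by
      intro j k h1 h2 h3
      have hj : j ≤ 3 := by omega
      have hk : k ≤ 3 := by omega
      interval_cases j <;> interval_cases k <;> first | (exfalso; omega) | norm_num [abs_le])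
      4 le_rfl
  simpa using h

theorem rest3 : ∀ p τ : V, Conf 3 p τ → Bd (2.76) (2.5) p τ := by
  have h := chain (V := V) 3
    (fun i => if i = 0 then 0 else if i = 1 then 1 / 2 else if i = 2 then 1.13 else 2.76)
    (fun i => if i = 0 then 0 else if i = 1 then 1 / 2 else if i = 2 then 0.9 else 2.5)
    (by simp) (by simp) (by simp) (by simp)
    (by
      intro i h1 h2
      interval_cases i <;> norm_num [StepOK])
    (by
      intro j k h1 h2 h3
      have hj : j ≤ 2 := by omega
      have hk : k ≤ 2 := by omega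
      interval_cases j <;> interval_cases k <;> first | (exfalso; omega) | norm_num [abs_le])
      3 le_rfl
  simpa using h

theorem rest2 : ∀ p τ : V, Conf 2 p τ → Bd (1.31) (1.2) p τ := by
  have h := chain (V := V) 2
    (fun i => if i = 0 then 0 else if i = 1 then 1 / 2 else 1.31)
    (fun i => if i = 0 then 0 else if i = 1 then 1 / 2 else 1.2)
    (by simp) (by simp) (by simp) (by simp)
    (by
      intro i h1 h2
      interval_cases i <;> norm_num [StepOK])
    (by
      intro j k h1 h2 h3
      have hj : j ≤ 1 := by omega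
      have hk : k ≤ 1 := by omega
      interval_cases j <;> interval_cases k <;> first | (exfalso; omega) | norm_num [abs_le])
      2 le_rfl
  simpa using h

theorem rest1 : ∀ p τ : V, Conf 1 p τ → Bd (1 / 2) (1 / 2) p τ := by
  have h := chain (V := V) 1
    (fun i => if i = 0 then 0 else 1 / 2)
    (fun i => if i = 0 then 0 else 1 / 2)
    (by simp) (by simp) (by simp) (by simp)
    (by intro i h1 h2; omega) (by intro j k h1 h2 h3; omega) 1 le_rfl
  simpa using h

theorem small3 : ∀ p τ : V, Conf 3 p τ → Bd (1.84) (1.2) p τ := by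
  have h := chain (V := V) 3
    (fun i => if i = 0 then 0 else if i = 1 then 1 / 2 else if i = 2 then 1.13 else 1.84)
    (fun i => if i = 0 then 0 else if i = 1 then 1 / 2 else if i = 2 then 0.9 else 1.2)
    (by simp) (by simp) (by simp) (by simp)
    (by
      intro i h1 h2
      interval_cases i <;> norm_num [StepOK])
    (by
      intro j k h1 h2 h3
      have hj : j ≤ 2 := by omega
      have hk : k ≤ 2 := by omega
      interval_cases j <;> interval_cases k <;> first | (exfalso; omega) | norm_num [abs_le])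
      3 le_rfl
  simpa using h

/-- The inequality extracted from a branch `w` at the root `p` together with the rest. -/
theorem final {Km bm Kk bk t C : ℝ} (ht : 0 < t) (hC : C = Km + Kk / t) (hC0 : 0 < C)
    {p w σ τ : V} (h1 : Bd Km bm w σ) (h2 : Bd Kk bk p τ) (hsum : p + (w + σ + τ) = 0) :
    ((1 + bk) ^ 2 / C - Kk * t) * inner ℝ p p + 2 * ((1 + bk) * (1 + bm) / C) * inner ℝ w p
      + ((1 + bm) ^ 2 / C - Km) * inner ℝ w w ≤ 0 := by
  set s : V := (1 / C) • ((1 + bk) • p + (1 + bm) • w) with hs
  have e1 := h1 s 1 one_pos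
  have e2 := h2 s t ht
  have hσ : inner ℝ s σ + inner ℝ s τ = -(inner ℝ s p + inner ℝ s w) := by
    have : inner ℝ s (p + (w + σ + τ)) = 0 := by rw [hsum, inner_zero_right]
    simp only [inner_add_right] at this
    linarith
  have hc3 : inner ℝ p w = inner ℝ w p := real_inner_comm w p
  have hsp : inner ℝ s p = 1 / C * ((1 + bk) * inner ℝ p p + (1 + bm) * inner ℝ w p) := by
    rw [hs]; simp only [inner_add_left, real_inner_smul_left]
  have hsw : inner ℝ s w = 1 / C * ((1 + bk) * inner ℝ w p + (1 + bm) * inner ℝ w w) := by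
    rw [hs]; simp only [inner_add_left, real_inner_smul_left, hc3]
  have hss : inner ℝ s s = 1 / C * ((1 + bk) * inner ℝ s p + (1 + bm) * inner ℝ s w) := by
    conv_lhs => rw [hs]
    simp only [inner_add_left, real_inner_smul_left]
    rw [real_inner_comm s p, real_inner_comm s w]
  have hps : inner ℝ p s = inner ℝ s p := real_inner_comm s p
  have hws : inner ℝ w s = inner ℝ s w := real_inner_comm s w
  rw [hps] at e2
  rw [hws] at e1
  have e3 : Km * (1 * inner ℝ w w + inner ℝ s s / 1) + Kk * (t * inner ℝ p p + inner ℝ s s / t) =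
      Km * inner ℝ w w + Kk * t * inner ℝ p p + C * inner ℝ s s := by
    rw [hC]; field_simp; ring
  have e4 : C * inner ℝ s s = (1 + bk) * inner ℝ s p + (1 + bm) * inner ℝ s w := by
    rw [hss]; field_simp
  have e5 : (1 + bk) * inner ℝ s p + (1 + bm) * inner ℝ s w =
      (1 + bk) ^ 2 / C * inner ℝ p p + 2 * ((1 + bk) * (1 + bm) / C) * inner ℝ w p
        + (1 + bm) ^ 2 / C * inner ℝ w w := by
    rw [hsp, hsw]; field_simp; ring
  nlinarith

theorem eq_zero_of_inner_le {w : V} (h : inner ℝ w w ≤ 0) : w = 0 :=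
  inner_self_eq_zero.mp (le_antisymm h real_inner_self_nonneg)

/-- Either some branch at `p` has at least five nodes, or the sum is not too far against `p`. -/
theorem conf_split {n : ℕ} {p τ : V} (h : Conf n p τ) :
    (∃ m k : ℕ, ∃ w σ τ' : V, m + k + 1 = n ∧ 4 ≤ m ∧ inner ℝ w w ≤ inner ℝ w p ∧
      Conf m w σ ∧ Conf k p τ' ∧ τ = w + σ + τ') ∨
    (-((n : ℝ) / 10) * inner ℝ p p ≤ inner ℝ p τ) := by
  induction h with
  | nil p => right; simp
  | @cons m k p w σ τ hw h1 h2 _ ih2 =>
    by_cases hm : 4 ≤ m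
    · left
      exact ⟨m, k, w, σ, τ, rfl, hm, hw, h1, h2, rfl⟩
    · rcases ih2 with ⟨m', k', w', σ', τ', e1, e2, e3, e4, e5, e6⟩ | ih
      · left
        refine ⟨m', m + k' + 1, w', σ', w + σ + τ', by omega, e2, e3, e4,
          Conf.cons hw h1 e5, ?_⟩
        rw [e6]; abel
      · right
        have hp0 : 0 ≤ inner ℝ p p := real_inner_self_nonneg
        have hb : -(((m : ℝ) + 1) / 10) * inner ℝ p p ≤ inner ℝ p (w + σ) := by
          have hm' : m < 4 := by omega
          interval_cases m
          · have := conf_zero h1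
            subst this
            have h0 : 0 ≤ inner ℝ w w := real_inner_self_nonneg
            have hc3 : inner ℝ p w = inner ℝ w p := real_inner_comm w p
            rw [add_zero, hc3]
            push_cast
            nlinarith
          · have := branch_bound (by norm_num) (by norm_num) hw (rest1 w σ h1)
            push_cast
            norm_num at this ⊢
            nlinarith
          · have := branch_bound (by norm_num) (by norm_num) hw (rest2 w σ h1)
            push_cast
            norm_num at this ⊢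
            nlinarith
          · have := branch_bound (by norm_num) (by norm_num) hw (small3 w σ h1)
            push_cast
            norm_num at this ⊢
            nlinarith
        rw [inner_add_right]
        push_cast
        nlinarith

theorem no_conf {p : V} (h : Conf 9 p (-p)) : p = 0 := by
  rcases conf_split h with ⟨m, k, w, σ, τ, e1, e2, hw, h1, h2, e3⟩ | h
  · have hsum : p + (w + σ + τ) = 0 := by rw [← e3]; abel
    have hX : 0 ≤ inner ℝ p p := real_inner_self_nonneg
    have hY : 0 ≤ inner ℝ w w := real_inner_self_nonneg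
    apply eq_zero_of_inner_le
    have hm : m ≤ 8 := by omega
    interval_cases m
    · obtain rfl : k = 4 := by omega
      have := final (t := 0.43) (C := 2.61 + 5.26 / 0.43) (by norm_num) rfl (by norm_num)
        (top4 w σ h1) (rest4 p τ h2) hsum
      generalize inner ℝ p p = X at *
      generalize inner ℝ w w = Y at *
      generalize inner ℝ w p = Z at *
      norm_num at this
      linarith
    · obtain rfl : k = 3 := by omega
      have := final (t := 0.47) (C := 3.51 + 2.76 / 0.47) (by norm_num) rfl (by norm_num)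
        (top5 w σ h1) (rest3 p τ h2) hsum
      generalize inner ℝ p p = X at *
      generalize inner ℝ w w = Y at *
      generalize inner ℝ w p = Z at *
      norm_num at this
      linarith
    · obtain rfl : k = 2 := by omega
      have := final (t := 0.48) (C := 4.94 + 1.31 / 0.48) (by norm_num) rfl (by norm_num)
        (top6 w σ h1) (rest2 p τ h2) hsum
      generalize inner ℝ p p = X at *
      generalize inner ℝ w w = Y at *
      generalize inner ℝ w p = Z at *
      norm_num at this
      linarith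
    · obtain rfl : k = 1 := by omega
      have := final (t := 0.57) (C := 6.87 + (1 / 2) / 0.57) (by norm_num) rfl (by norm_num)
        (top7 w σ h1) (rest1 p τ h2) hsum
      generalize inner ℝ p p = X at *
      generalize inner ℝ w w = Y at *
      generalize inner ℝ w p = Z at *
      norm_num at this
      linarith
    · obtain rfl : k = 0 := by omega
      have hτ := conf_zero h2
      subst hτ
      have := final (t := 1) (C := 12.18) (by norm_num) (by norm_num) (by norm_num)
        (top8 w σ h1) (bd_zero p) hsum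
      have hq : 0 ≤ inner ℝ (p - (0.98 : ℝ) • w) (p - (0.98 : ℝ) • w) := real_inner_self_nonneg
      have hc3 : inner ℝ p w = inner ℝ w p := real_inner_comm w p
      simp only [inner_sub_left, inner_sub_right, real_inner_smul_left, real_inner_smul_right,
        hc3] at hq
      have hw0 : inner ℝ w w ≤ 0 := by
        generalize inner ℝ p p = X at *
        generalize inner ℝ w w = Y at *
        generalize inner ℝ w p = Z at *
        norm_num at this hq
        linarith
      have hw1 := eq_zero_of_inner_le hw0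
      subst hw1
      simp only [inner_zero_left] at this
      generalize inner ℝ p p = X at *
      norm_num at this
      linarith
  · apply eq_zero_of_inner_le
    rw [inner_neg_right] at h
    generalize inner ℝ p p = X at *
    norm_num at h
    linarith

/-- No configuration with at most nine non-root nodes can have total sum zero. -/
theorem no_conf_le {n : ℕ} (hn : n ≤ 9) {p : V} (h : Conf n p (-p)) : p = 0 :=
  no_conf (conf_mono hn h)

theorem conf_of_tree {ι : Type*} [DecidableEq ι] (w : ι → V) (r : ι) (f : ι → ι)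
    (hf : ∀ i, i ≠ r → inner ℝ (w i) (w i) ≤ inner ℝ (w i) (w (f i)))
    (hlt : ∀ i, i ≠ r → ‖w i‖ < ‖w (f i)‖) :
    ∀ (N : ℕ) (A : Finset ι), A.card = N + 1 → r ∈ A → (∀ i ∈ A, i ≠ r → f i ∈ A) →
      ∀ (num : ι → ℕ) (σ : ι → V), (∀ i ∈ A, Conf (num i) (w i) (σ i)) →
      ∃ n, n + 1 = ∑ i ∈ A, (num i + 1) ∧ Conf n (w r) (∑ i ∈ A, (w i + σ i) - w r) := by
  intro N
  induction N with
  | zero =>
    intro A hA hr _ num σ hc
    obtain ⟨a, rfl⟩ := Finset.card_eq_one.mp hA
    have hra : r = a := by simpa using hr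
    subst hra
    refine ⟨num r, by simp, ?_⟩
    have := hc r (by simp)
    simpa using this
  | succ N ih =>
    intro A hA hr hcl num σ hc
    have hne : (A.erase r).Nonempty := by
      rw [← Finset.card_pos, Finset.card_erase_of_mem hr]; omega
    obtain ⟨i, hi, hmin⟩ := Finset.exists_min_image (A.erase r) (fun j => ‖w j‖) hne
    rw [Finset.mem_erase] at hi
    obtain ⟨hir, hiA⟩ := hi
    have hfi : f i ∈ A := hcl i hiA hir
    have hfine : f i ≠ i := by
      intro h
      have := hlt i hir
      rw [h] at this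
      exact lt_irrefl _ this
    have hfiA' : f i ∈ A.erase i := Finset.mem_erase.mpr ⟨hfine, hfi⟩
    set num' : ι → ℕ := fun j => if j = f i then num i + num (f i) + 1 else num j with hnum'
    set σ' : ι → V := fun j => if j = f i then w i + σ i + σ (f i) else σ j with hσ'
    have key := ih (A.erase i) (by rw [Finset.card_erase_of_mem hiA]; omega)
      (Finset.mem_erase.mpr ⟨hir.symm, hr⟩)
      (by
        intro j hj hjr
        rw [Finset.mem_erase] at hj
        refine Finset.mem_erase.mpr ⟨?_, hcl j hj.2 hjr⟩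
        intro h
        have h1 := hlt j hjr
        rw [h] at h1
        have h2 := hmin j (Finset.mem_erase.mpr ⟨hjr, hj.2⟩)
        exact absurd h2 (not_le.mpr h1))
      num' σ'
      (by
        intro j hj
        rw [Finset.mem_erase] at hj
        by_cases hjf : j = f i
        · subst hjf
          simp only [hnum', hσ', if_true]
          exact Conf.cons (hf i hir) (hc i hiA) (hc _ hfi)
        · simp only [hnum', hσ', if_neg hjf]
          exact hc j hj.2)
    obtain ⟨n, hn, hconf⟩ := key
    have e1 : ∑ j ∈ A.erase i, (num' j + 1) = ∑ j ∈ A, (num j + 1) := by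
      rw [← Finset.add_sum_erase A _ hiA, ← Finset.add_sum_erase (A.erase i) _ hfiA',
        ← Finset.add_sum_erase (A.erase i) (fun j => num j + 1) hfiA']
      have : ∑ x ∈ (A.erase i).erase (f i), (num' x + 1) =
          ∑ x ∈ (A.erase i).erase (f i), (num x + 1) := by
        apply Finset.sum_congr rfl
        intro x hx
        rw [Finset.mem_erase] at hx
        simp only [hnum', if_neg hx.1]
      rw [this]
      simp only [hnum', if_true]
      ring
    have e2 : ∑ j ∈ A.erase i, (w j + σ' j) = ∑ j ∈ A, (w j + σ j) := by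
      rw [← Finset.add_sum_erase A _ hiA, ← Finset.add_sum_erase (A.erase i) _ hfiA',
        ← Finset.add_sum_erase (A.erase i) (fun j => w j + σ j) hfiA']
      have : ∑ x ∈ (A.erase i).erase (f i), (w x + σ' x) =
          ∑ x ∈ (A.erase i).erase (f i), (w x + σ x) := by
        apply Finset.sum_congr rfl
        intro x hx
        rw [Finset.mem_erase] at hx
        simp only [hσ', if_neg hx.1]
      rw [this]
      simp only [hσ', if_true]
      abel
    rw [e1] at hn
    rw [e2] at hconf
    exact ⟨n, hn, hconf⟩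

/-- The algebraic core: vectors `w i` with zero sum such that every index except `r` has a
`longer` neighbour must all vanish at `r`, if there are at most ten of them. -/
theorem core {n : ℕ} (hn : n ≤ 9) (w : Fin (n + 1) → V) (r : Fin (n + 1))
    (hsum : ∑ i, w i = 0) (hinj : ∀ i j, i ≠ j → w i ≠ w j)
    (h : ∀ i, i ≠ r → ∃ j, j ≠ i ∧ inner ℝ (w i) (w i) ≤ inner ℝ (w i) (w j)) : w r = 0 := by
  classical
  choose! f hf1 hf2 using h
  have hlt : ∀ i, i ≠ r → ‖w i‖ < ‖w (f i)‖ := by
    intro i hi
    have h1 := hf2 i hi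
    have h2 : w i ≠ w (f i) := hinj _ _ (hf1 i hi).symm
    have h3 : 0 < ‖w i - w (f i)‖ := norm_pos_iff.mpr (sub_ne_zero.mpr h2)
    have h4 : ‖w i - w (f i)‖ ^ 2 = ‖w i‖ ^ 2 - 2 * inner ℝ (w i) (w (f i)) + ‖w (f i)‖ ^ 2 :=
      norm_sub_sq_real _ _
    have h5 : inner ℝ (w i) (w i) = ‖w i‖ ^ 2 := real_inner_self_eq_norm_sq _
    rw [h5] at h1
    have h6 : ‖w i‖ ^ 2 < ‖w (f i)‖ ^ 2 := by nlinarith
    exact lt_of_pow_lt_pow_left₀ 2 (norm_nonneg _) h6
  obtain ⟨m, hm, hc⟩ := conf_of_tree w r f hf2 hlt n Finset.univ (by simp) (Finset.mem_univ _)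
    (fun i _ _ => Finset.mem_univ _) (fun _ => 0) (fun _ => 0) (fun i _ => Conf.nil _)
  simp only [add_zero, zero_add, Finset.sum_const, Finset.card_univ, Fintype.card_fin,
    smul_eq_mul, mul_one, hsum, zero_sub] at hm hc
  have hmn : m ≤ 9 := by omega
  exact no_conf_le hmn hc

end Conf

section Geometry

variable {n : ℕ}

theorem coord_eq_zero_of_mem_affineSpan (b : AffineBasis (Fin (n + 1)) ℝ (EuclideanSpace ℝ (Fin n)))
    (i : Fin (n + 1)) {x : EuclideanSpace ℝ (Fin n)} (hx : x ∈ affineSpan ℝ (b '' {i}ᶜ)) :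
    b.coord i x = 0 := by
  have h1 : b.coord i x ∈ (affineSpan ℝ (b '' {i}ᶜ)).map (b.coord i) :=
    AffineSubspace.mem_map.mpr ⟨x, hx, rfl⟩
  rw [AffineSubspace.map_span] at h1
  have h2 : (b.coord i) '' (b '' {i}ᶜ) ⊆ {0} := by
    rintro _ ⟨_, ⟨j, hj, rfl⟩, rfl⟩
    simp only [Set.mem_singleton_iff]
    exact b.coord_apply_ne (by simpa [eq_comm] using hj)
  have h3 := affineSpan_mono ℝ h2 h1
  simpa using h3

theorem mem_convexHull_facet (b : AffineBasis (Fin (n + 1)) ℝ (EuclideanSpace ℝ (Fin n)))
    (i : Fin (n + 1)) {x : EuclideanSpace ℝ (Fin n)} (h0 : b.coord i x = 0)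
    (h : ∀ j, j ≠ i → 0 ≤ b.coord j x) : x ∈ convexHull ℝ (b '' {i}ᶜ) := by
  have hx : ∑ j, b.coord j x • b j = x := b.linear_combination_coord_eq_self x
  have h1 : ∑ j, b.coord j x = 1 := b.sum_coord_apply_eq_one x
  rw [← Finset.add_sum_erase Finset.univ _ (Finset.mem_univ i), h0] at h1 hx
  rw [zero_add] at h1
  rw [zero_smul, zero_add] at hx
  rw [← hx]
  apply (convex_convexHull ℝ _).sum_mem
  · intro j hj
    exact h j (Finset.ne_of_mem_erase hj)
  · exact h1
  · intro j hj
    exact subset_convexHull ℝ _ ⟨j, by simpa using Finset.ne_of_mem_erase hj, rfl⟩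

theorem coord_nonneg_of_mem (b : AffineBasis (Fin (n + 1)) ℝ (EuclideanSpace ℝ (Fin n)))
    (i : Fin (n + 1)) {x : EuclideanSpace ℝ (Fin n)} (hx : x ∈ convexHull ℝ (b '' {i}ᶜ))
    (j : Fin (n + 1)) : 0 ≤ b.coord j x := by
  have h : convexHull ℝ (b '' {i}ᶜ) ⊆ convexHull ℝ (Set.range b) :=
    convexHull_mono (Set.image_subset_range _ _)
  have h2 := h hx
  rw [b.convexHull_eq_nonneg_coord] at h2
  exact h2 j

theorem intrinsicInterior_facet (b : AffineBasis (Fin (n + 1)) ℝ (EuclideanSpace ℝ (Fin n)))
    (i : Fin (n + 1)) (x : EuclideanSpace ℝ (Fin n)) :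
    x ∈ intrinsicInterior ℝ (convexHull ℝ (b '' {i}ᶜ)) ↔
      b.coord i x = 0 ∧ ∀ j, j ≠ i → 0 < b.coord j x := by
  constructor
  · intro hx
    have hxc : x ∈ convexHull ℝ (b '' {i}ᶜ) := intrinsicInterior_subset hx
    have hxs : x ∈ affineSpan ℝ (b '' {i}ᶜ) := convexHull_subset_affineSpan _ hxc
    refine ⟨coord_eq_zero_of_mem_affineSpan b i hxs, fun j hj => ?_⟩
    rcases (coord_nonneg_of_mem b i hxc j).lt_or_eq with h | h
    · exact h
    exfalso
    obtain ⟨y, hy, hyx⟩ := mem_intrinsicInterior.mp hx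
    -- path in the affine span
    have hjs : b j ∈ affineSpan ℝ (convexHull ℝ (b '' {i}ᶜ)) :=
      subset_affineSpan ℝ _ (subset_convexHull ℝ _ ⟨j, by simpa using hj, rfl⟩)
    have hmem : ∀ ε : ℝ, AffineMap.lineMap x (b j) (-ε) ∈
        affineSpan ℝ (convexHull ℝ (b '' {i}ᶜ)) := by
      intro ε
      exact AffineMap.lineMap_mem _ (by rw [← hyx]; exact y.2) hjs
    let g : ℝ → affineSpan ℝ (convexHull ℝ (b '' {i}ᶜ)) := fun ε => ⟨_, hmem ε⟩
    have hg : Continuous g := by
      apply Continuous.subtype_mk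
      exact AffineMap.lineMap_continuous.comp continuous_neg
    have hg0 : g 0 = y := by
      apply Subtype.ext
      simp [g, hyx]
    have hev : ∀ᶠ ε in nhds (0 : ℝ), g ε ∈ ((↑) ⁻¹' (convexHull ℝ (b '' {i}ᶜ)) :
        Set (affineSpan ℝ (convexHull ℝ (b '' {i}ᶜ)))) := by
      have : (interior ((↑) ⁻¹' (convexHull ℝ (b '' {i}ᶜ)) :
        Set (affineSpan ℝ (convexHull ℝ (b '' {i}ᶜ))))) ∈ nhds (g 0) := by
        rw [hg0]; exact isOpen_interior.mem_nhds hy
      exact (hg.continuousAt.eventually this).mono (fun ε hε => interior_subset hε)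
    have hev2 : ∀ᶠ ε in nhdsWithin (0 : ℝ) (Set.Ioi 0), g ε ∈ ((↑) ⁻¹' (convexHull ℝ (b '' {i}ᶜ)) :
        Set (affineSpan ℝ (convexHull ℝ (b '' {i}ᶜ)))) := hev.filter_mono nhdsWithin_le_nhds
    obtain ⟨ε, hε1, hε2⟩ := (hev2.and self_mem_nhdsWithin).exists
    have h3 := coord_nonneg_of_mem b i hε1 j
    have h4 : b.coord j (AffineMap.lineMap x (b j) (-ε)) = -ε := by
      rw [AffineMap.apply_lineMap, ← h, b.coord_apply_eq, AffineMap.lineMap_apply]
      simp
    have h5 : b.coord j ((g ε : EuclideanSpace ℝ (Fin n))) = -ε := h4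
    rw [h5] at h3
    have : (0 : ℝ) < ε := hε2
    linarith
  · rintro ⟨h0, h1⟩
    have hxc : x ∈ convexHull ℝ (b '' {i}ᶜ) := mem_convexHull_facet b i h0 (fun j hj => (h1 j hj).le)
    have hxs : x ∈ affineSpan ℝ (convexHull ℝ (b '' {i}ᶜ)) := subset_affineSpan ℝ _ hxc
    refine mem_intrinsicInterior.mpr ⟨⟨x, hxs⟩, ?_, rfl⟩
    rw [mem_interior]
    have hx1 : (⟨x, hxs⟩ : affineSpan ℝ (convexHull ℝ (b '' {i}ᶜ))) ∈ (Subtype.val ⁻¹'
        {z : EuclideanSpace ℝ (Fin n) | ∀ j, j ≠ i → 0 < b.coord j z} :
        Set (affineSpan ℝ (convexHull ℝ (b '' {i}ᶜ)))) := h1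
    refine ⟨_, ?_, ?_, hx1⟩
    · intro z hz
      have hz1 : (z : EuclideanSpace ℝ (Fin n)) ∈ affineSpan ℝ (b '' {i}ᶜ) := by
        exact (affineSpan_convexHull (𝕜 := ℝ) (b '' {i}ᶜ)).le z.2
      exact mem_convexHull_facet b i (coord_eq_zero_of_mem_affineSpan b i hz1)
        (fun j hj => (hz j hj).le)
    · apply IsOpen.preimage continuous_subtype_val
      have : {z : EuclideanSpace ℝ (Fin n) | ∀ j, j ≠ i → 0 < b.coord j z} =
          ⋂ j, ⋂ (_ : j ≠ i), {z | 0 < b.coord j z} := by
        ext z; simp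
      rw [this]
      apply isOpen_iInter_of_finite
      intro j
      apply isOpen_iInter_of_finite
      intro _
      exact isOpen_lt continuous_const (b.coord j).continuous_of_finiteDimensional

theorem coord_centroid (b : AffineBasis (Fin (n + 1)) ℝ (EuclideanSpace ℝ (Fin n)))
    (j : Fin (n + 1)) : b.coord j (((n : ℝ) + 1)⁻¹ • ∑ k, b k) = ((n : ℝ) + 1)⁻¹ := by
  have hn : (n : ℝ) + 1 ≠ 0 := by positivity
  have hw : ∑ k : Fin (n + 1), (fun _ => ((n : ℝ) + 1)⁻¹ : Fin (n + 1) → ℝ) k = 1 := by
    simp [hn]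
  have h1 := b.coord_apply_combination_of_mem (Finset.mem_univ j) hw
  rw [Finset.affineCombination_eq_linear_combination _ _ _ hw] at h1
  rw [← Finset.smul_sum] at h1
  exact h1

/-- the criterion -/
theorem stable_iff (hn : 1 ≤ n) (b : AffineBasis (Fin (n + 1)) ℝ (EuclideanSpace ℝ (Fin n)))
    (w : Fin (n + 1) → EuclideanSpace ℝ (Fin n))
    (hw : ∀ i x y, b.coord i x - b.coord i y = inner ℝ (w i) (x - y)) (i : Fin (n + 1)) :
    (∃ p ∈ intrinsicInterior ℝ (convexHull ℝ (b '' {i}ᶜ)), ∀ x ∈ affineSpan ℝ (b '' {i}ᶜ),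
      inner ℝ ((((n : ℝ) + 1)⁻¹ • ∑ k, b k) - p) (x - p) = 0) ↔
    ∀ j, j ≠ i → inner ℝ (w i) (w j) < inner ℝ (w i) (w i) := by
  have hn1 : (0 : ℝ) < (n : ℝ) + 1 := by positivity
  set g := (((n : ℝ) + 1)⁻¹ • ∑ k, b k) with hg
  have hgc : ∀ j, b.coord j g = ((n : ℝ) + 1)⁻¹ := fun j => coord_centroid b j
  constructor
  · rintro ⟨p, hp, hperp⟩ j hj
    obtain ⟨hp0, hp1⟩ := (intrinsicInterior_facet b i p).mp hp
    set u := g - p with hu
    have key : ∀ y : EuclideanSpace ℝ (Fin n), inner ℝ u y = inner ℝ (w i) y * inner ℝ u (b i - p) := by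
      intro y
      have e1 : ∑ k, b.coord k (p + y) • b k = p + y := b.linear_combination_coord_eq_self _
      have e2 : ∑ k, b.coord k p • b k = p := b.linear_combination_coord_eq_self _
      have e3 : ∀ k, inner ℝ (w k) y = b.coord k (p + y) - b.coord k p := by
        intro k
        rw [hw k]; congr 1; abel
      have e4 : ∑ k, inner ℝ (w k) y = 0 := by
        simp_rw [e3]
        rw [Finset.sum_sub_distrib, b.sum_coord_apply_eq_one, b.sum_coord_apply_eq_one]; ring
      have e5 : y = ∑ k, inner ℝ (w k) y • (b k - p) := by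
        simp_rw [smul_sub]
        rw [Finset.sum_sub_distrib, ← Finset.sum_smul, e4, zero_smul, sub_zero]
        simp_rw [e3, sub_smul]
        rw [Finset.sum_sub_distrib, e1, e2]; abel
      have e6 : inner ℝ u y = ∑ k, inner ℝ (w k) y * inner ℝ u (b k - p) := by
        conv_lhs => rw [e5]
        rw [inner_sum]
        simp_rw [inner_smul_right]
      rw [e6]
      apply Finset.sum_eq_single i
      · intro k _ hk
        rw [hperp (b k) (subset_affineSpan ℝ _ ⟨k, by simpa using hk, rfl⟩), mul_zero]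
      · simp
    set c := inner ℝ u (b i - p) with hc
    have hu2 : u = c • w i := by
      apply ext_inner_right ℝ
      intro y
      rw [key, real_inner_smul_left]; ring
    have h1 : ((n : ℝ) + 1)⁻¹ = c * inner ℝ (w i) (w i) := by
      have := hw i g p
      rw [hgc, hp0, ← hu, hu2, real_inner_smul_right] at this
      linarith
    have h2 : b.coord j p = ((n : ℝ) + 1)⁻¹ - c * inner ℝ (w i) (w j) := by
      have := hw j g p
      rw [hgc, ← hu, hu2, real_inner_smul_right, real_inner_comm] at this
      linarith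
    have h3 := hp1 j hj
    rw [h2, h1] at h3
    have hww : 0 ≤ inner ℝ (w i) (w i) := real_inner_self_nonneg
    have hcpos : 0 < c := by
      have : 0 < c * inner ℝ (w i) (w i) := by rw [← h1]; positivity
      by_contra hcon
      push Not at hcon
      nlinarith
    nlinarith
  · intro h
    have hwi : w i ≠ 0 := by
      intro h0
      obtain ⟨j, hj⟩ : ∃ j : Fin (n + 1), j ≠ i := by
        have : Nontrivial (Fin (n + 1)) := Fin.nontrivial_iff_two_le.mpr (by omega)
        exact exists_ne i
      have := hw i (b i) (b j)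
      rw [h0, inner_zero_left, b.coord_apply_eq, b.coord_apply_ne hj.symm] at this
      norm_num at this
    have hww : 0 < inner ℝ (w i) (w i) := real_inner_self_pos.mpr hwi
    set c : ℝ := ((n : ℝ) + 1)⁻¹ / inner ℝ (w i) (w i) with hc
    have hcpos : 0 < c := by positivity
    have hcw : c * inner ℝ (w i) (w i) = ((n : ℝ) + 1)⁻¹ := by rw [hc]; field_simp
    set p := g - c • w i with hp
    have hcoord : ∀ j, b.coord j p = ((n : ℝ) + 1)⁻¹ - c * inner ℝ (w i) (w j) := by
      intro j
      have := hw j g p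
      have e : g - p = c • w i := by rw [hp]; abel
      rw [hgc, e, real_inner_smul_right, real_inner_comm] at this
      linarith
    have hp0 : b.coord i p = 0 := by rw [hcoord, hcw]; ring
    refine ⟨p, (intrinsicInterior_facet b i p).mpr ⟨hp0, ?_⟩, ?_⟩
    · intro j hj
      rw [hcoord, ← hcw]
      have := h j hj
      nlinarith
    · intro x hx
      have e : g - p = c • w i := by rw [hp]; abel
      rw [e, real_inner_smul_left, ← hw i x p, hp0, coord_eq_zero_of_mem_affineSpan b i hx]
      ring

end Geometry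

section Example

/-- integer coordinates of the barycentric gradients (inner facet normals) of the example -/
def wZ : Fin 11 → Fin 10 → ℤ :=
  ![![66, 0, 0, 0, 0, 0, 0, 0, 0, 0],
    ![16, 28, 0, 0, 0, 0, 0, 0, 0, 0],
    ![-6, 21, 1, 0, 0, 0, 0, 0, 0, 0],
    ![-13, 13, 0, 1, 0, 0, 0, 0, 0, 0],
    ![-15, 7, 0, 0, 1, 0, 0, 0, 0, 0],
    ![-15, 3, 0, 0, 0, 1, 0, 0, 0, 0],
    ![16, -28, 0, 0, 0, 0, 1, 0, 0, 0],
    ![-6, -21, 0, 0, 0, 0, 0, 1, 0, 0],
    ![-13, -13, 0, 0, 0, 0, 0, 0, 1, 0],
    ![-15, -7, 0, 0, 0, 0, 0, 0, 0, 1],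
    ![-15, -3, -1, -1, -1, -1, -1, -1, -1, -1]]

/-- a planar part of the vertices -/
def yZ (j : Fin 11) : ℤ × ℤ :=
  let a : ℤ := if j = 0 then 10 else -1
  let b : ℤ := if j = 1 then 10 else -1
  (14 * a, 33 * b - 8 * a)

/-- integer coordinates of the vertices of the example -/
def vZ (j : Fin 11) : Fin 10 → ℤ := fun k =>
  if k = 0 then (yZ j).1 else if k = 1 then (yZ j).2 else
    (if (k : ℕ) = j then 9240 else -924) - wZ ⟨k, by omega⟩ 0 * (yZ j).1 - wZ ⟨k, by omega⟩ 1 * (yZ j).2

theorem dual_Z : ∀ i j : Fin 11, ∑ k, wZ i k * vZ j k = if i = j then 9240 else -924 := by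
  decide +kernel

def toE (a : Fin 10 → ℤ) : EuclideanSpace ℝ (Fin 10) := WithLp.toLp 2 (fun k => (a k : ℝ))

theorem inner_toE (a b : Fin 10 → ℤ) :
    inner ℝ (toE a) (toE b) = ((∑ k, a k * b k : ℤ) : ℝ) := by
  simp [toE, PiLp.inner_apply, mul_comm]

end Example

section Final

variable {n : ℕ}

/-- the affine basis given by the vertices of a simplex -/
def toBasis (S : Affine.Simplex ℝ (EuclideanSpace ℝ (Fin n)) n) :
    AffineBasis (Fin (n + 1)) ℝ (EuclideanSpace ℝ (Fin n)) where
  toFun := S.points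
  ind' := S.independent
  tot' := by
    rw [S.independent.affineSpan_eq_top_iff_card_eq_finrank_add_one]
    simp

theorem toBasis_apply (S : Affine.Simplex ℝ (EuclideanSpace ℝ (Fin n)) n) (i : Fin (n + 1)) :
    toBasis S i = S.points i := rfl

theorem toBasis_coe (S : Affine.Simplex ℝ (EuclideanSpace ℝ (Fin n)) n) :
    (toBasis S : Fin (n + 1) → EuclideanSpace ℝ (Fin n)) = S.points := rfl

theorem exists_dual (b : AffineBasis (Fin (n + 1)) ℝ (EuclideanSpace ℝ (Fin n))) :
    ∃ w : Fin (n + 1) → EuclideanSpace ℝ (Fin n),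
      ∀ i x y, b.coord i x - b.coord i y = inner ℝ (w i) (x - y) := by
  refine ⟨fun i => (InnerProductSpace.toDual ℝ (EuclideanSpace ℝ (Fin n))).symm
    (LinearMap.toContinuousLinearMap (b.coord i).linear), fun i x y => ?_⟩
  rw [InnerProductSpace.toDual_symm_apply]
  have := (b.coord i).linearMap_vsub x y
  simpa using this.symm

theorem stableFacet_iff (hn : 1 ≤ n) (S : Affine.Simplex ℝ (EuclideanSpace ℝ (Fin n)) n)
    (w : Fin (n + 1) → EuclideanSpace ℝ (Fin n))
    (hw : ∀ i x y, (toBasis S).coord i x - (toBasis S).coord i y = inner ℝ (w i) (x - y))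
    (i : Fin (n + 1)) :
    StableFacet S i ↔ ∀ j, j ≠ i → inner ℝ (w i) (w j) < inner ℝ (w i) (w i) :=
  stable_iff hn (toBasis S) w hw i

theorem not_monostatic (hn1 : 1 ≤ n) (hn9 : n ≤ 9)
    (S : Affine.Simplex ℝ (EuclideanSpace ℝ (Fin n)) n) : ¬ Monostatic S := by
  rintro ⟨r, _, hr⟩
  obtain ⟨w, hw⟩ := exists_dual (toBasis S)
  have hsum : ∑ i, w i = 0 := by
    have h1 : ∀ x : EuclideanSpace ℝ (Fin n), inner ℝ (∑ i, w i) x = 0 := by
      intro x
      rw [sum_inner]
      have : ∀ i, inner ℝ (w i) x = (toBasis S).coord i x - (toBasis S).coord i 0 := by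
        intro i; rw [hw, sub_zero]
      simp_rw [this]
      rw [Finset.sum_sub_distrib, AffineBasis.sum_coord_apply_eq_one,
        AffineBasis.sum_coord_apply_eq_one, sub_self]
    exact inner_self_eq_zero.mp (h1 _)
  have hinj : ∀ i j, i ≠ j → w i ≠ w j := by
    intro i j hij h
    have h1 := hw i (toBasis S i) (toBasis S j)
    have h2 := hw j (toBasis S i) (toBasis S j)
    rw [AffineBasis.coord_apply_eq, AffineBasis.coord_apply_ne _ hij] at h1
    rw [AffineBasis.coord_apply_eq, AffineBasis.coord_apply_ne _ hij.symm, ← h, ← h1] at h2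
    norm_num at h2
  have h0 := core hn9 w r hsum hinj (by
    intro i hi
    have hns : ¬ StableFacet S i := fun h => hi (hr i h)
    rw [stableFacet_iff hn1 S w hw] at hns
    push Not at hns
    obtain ⟨j, hj1, hj2⟩ := hns
    exact ⟨j, hj1, hj2⟩)
  obtain ⟨j, hj⟩ : ∃ j : Fin (n + 1), j ≠ r := by
    have : Nontrivial (Fin (n + 1)) := Fin.nontrivial_iff_two_le.mpr (by omega)
    exact exists_ne r
  have := hw r (toBasis S r) (toBasis S j)
  rw [h0, inner_zero_left, AffineBasis.coord_apply_eq, AffineBasis.coord_apply_ne _ hj.symm] at this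
  norm_num at this

theorem indep_ex : AffineIndependent ℝ (fun j => toE (vZ j)) := by
  rw [affineIndependent_iff]
  intro s c hc hs i hi
  have h1 : inner ℝ (toE (wZ i)) (∑ e ∈ s, c e • toE (vZ e)) = 0 := by
    rw [hs, inner_zero_right]
  rw [inner_sum] at h1
  simp_rw [real_inner_smul_right, inner_toE, dual_Z] at h1
  have h2 : ∀ e, c e * (((if i = e then 9240 else -924 : ℤ)) : ℝ) =
      -924 * c e + (if i = e then 10164 * c e else 0) := by
    intro e
    split_ifs <;> push_cast <;> ring
  simp_rw [h2] at h1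
  rw [Finset.sum_add_distrib, ← Finset.mul_sum, hc, Finset.sum_ite_eq, if_pos hi] at h1
  linarith

/-- the example in dimension 10 -/
def exS : Affine.Simplex ℝ (EuclideanSpace ℝ (Fin 10)) 10 := ⟨fun j => toE (vZ j), indep_ex⟩

theorem dual_ex (i : Fin 11) (x y : EuclideanSpace ℝ (Fin 10)) :
    (toBasis exS).coord i x - (toBasis exS).coord i y =
      inner ℝ ((10164 : ℝ)⁻¹ • toE (wZ i)) (x - y) := by
  have key : ∀ x : EuclideanSpace ℝ (Fin 10), inner ℝ ((10164 : ℝ)⁻¹ • toE (wZ i)) x =
      (toBasis exS).coord i x - 1 / 11 := by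
    intro x
    have e1 : ∑ k, (toBasis exS).coord k x • (toBasis exS) k = x :=
      (toBasis exS).linear_combination_coord_eq_self x
    have e2 : ∑ k, (toBasis exS).coord k x = 1 := (toBasis exS).sum_coord_apply_eq_one x
    conv_lhs => rw [← e1]
    rw [inner_sum]
    have e3 : ∀ k, inner ℝ ((10164 : ℝ)⁻¹ • toE (wZ i))
        ((toBasis exS).coord k x • (toBasis exS) k) =
        -(1 / 11) * (toBasis exS).coord k x + (if i = k then (toBasis exS).coord k x else 0) := by
      intro k
      have : (toBasis exS) k = toE (vZ k) := rfl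
      rw [this, real_inner_smul_right, real_inner_smul_left, inner_toE, dual_Z]
      split_ifs <;> push_cast <;> ring
    simp_rw [e3]
    rw [Finset.sum_add_distrib, ← Finset.mul_sum, e2, Finset.sum_ite_eq]
    simp
    ring
  rw [inner_sub_right, key, key]
  ring

theorem inner_w (i j : Fin 11) : inner ℝ ((10164 : ℝ)⁻¹ • toE (wZ i)) ((10164 : ℝ)⁻¹ • toE (wZ j)) =
    (10164 : ℝ)⁻¹ ^ 2 * ((∑ k, wZ i k * wZ j k : ℤ) : ℝ) := by
  rw [real_inner_smul_left, real_inner_smul_right, inner_toE]
  ring

theorem gram_root : ∀ j : Fin 11, j ≠ 0 → ∑ k, wZ 0 k * wZ j k < ∑ k, wZ 0 k * wZ 0 k := by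
  decide +kernel

theorem gram_other : ∀ i : Fin 11, i ≠ 0 → ∃ j : Fin 11, j ≠ i ∧
    ∑ k, wZ i k * wZ i k ≤ ∑ k, wZ i k * wZ j k := by
  decide +kernel

theorem monostatic_ex : Monostatic exS := by
  refine ⟨0, ?_, ?_⟩
  · simp only
    rw [stableFacet_iff (by norm_num) exS _ dual_ex]
    intro j hj
    rw [inner_w, inner_w]
    have := gram_root j hj
    have h2 : ((∑ k, wZ 0 k * wZ j k : ℤ) : ℝ) < ((∑ k, wZ 0 k * wZ 0 k : ℤ) : ℝ) := by
      exact_mod_cast this
    exact mul_lt_mul_of_pos_left h2 (by positivity)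
  · intro i hi
    by_contra hne
    rw [stableFacet_iff (by norm_num) exS _ dual_ex] at hi
    obtain ⟨j, hj1, hj2⟩ := gram_other i hne
    have h1 := hi j hj1
    rw [inner_w, inner_w] at h1
    have h2 : ((∑ k, wZ i k * wZ i k : ℤ) : ℝ) ≤ ((∑ k, wZ i k * wZ j k : ℤ) : ℝ) := by
      exact_mod_cast hj2
    have h3 := mul_le_mul_of_nonneg_left h2 (by positivity : (0 : ℝ) ≤ (10164 : ℝ)⁻¹ ^ 2)
    exact absurd h1 (not_lt.mpr h3)

end Final

/-- The least dimension `n ≥ 2` in which a monostatic uniform `n`-simplex exists is `10`. -/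
theorem result : IsLeast {n : ℕ | 2 ≤ n ∧
    ∃ S : Affine.Simplex ℝ (EuclideanSpace ℝ (Fin n)) n, Monostatic S} 10 := by
  refine ⟨⟨by norm_num, exS, monostatic_ex⟩, ?_⟩
  rintro n ⟨hn, S, hS⟩
  by_contra hlt
  exact not_monostatic (by omega) (by omega) S hS

end Pool.Agent.Results.MP_93bd63_co.LeastDimension
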